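import Pool.Agent.H68.Fa6

set_option autoImplicit false

namespace Pool.Agent.Results.MP_58728c_al.Exists

open Pool.Agent.H68.FaD Pool.Agent.H68.Fa

/-- Every subformation `F` of a one-generated saturated formation is a product `F₁ ⋯ F_t`, `t ≥ 1`,
of non-decomposable formations (the hypothesis `F ≠ FF` is not needed). -/
theorem result (G₀ : Type) [Group G₀] [Finite G₀] (F : Cls) (hF : IsFormation F)
    (hM : ∀ (G : Type) [Group G], F G → satGen G₀ G) :
    ∃ (F₁ : Cls) (L : List Cls),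
      (∀ X ∈ F₁ :: L, IsFormation X ∧
        ¬ ∃ A B : Cls, IsFormation A ∧ IsFormation B ∧ A ≠ X ∧ B ≠ X ∧ X = mul A B) ∧
      F = prod F₁ L := by
  obtain ⟨L, h1, h2, h3⟩ := lemC _ (Nat.card_pos (α := G₀)).ne' F (fo_iff.1 hF)
    fun G _ h => sat_ee G₀ G (hM G h)
  obtain ⟨F₁, L, rfl⟩ := List.exists_cons_of_ne_nil h1
  exact ⟨F₁, L, fun X hX => ⟨fo_iff.2 (h2 X hX).1, fun ⟨A, B, a, b, c, d, e⟩ =>
    ((h2 X hX).2 A B (fo_iff.1 a) (fo_iff.1 b) e).elim c d⟩,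
    h3.trans (prod_eq L F₁ fun X hX => (h2 X hX).1).symm⟩

end Pool.Agent.Results.MP_58728c_al.Exists
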